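import Mathlib
import Pool.Agent.H31.Levy2

set_option autoImplicit false

namespace Pool.Agent.Results.MP_89b5f7_an.Counter

open Filter Topology

/-- The Euclidean plane. -/
abbrev E2 : Type := EuclideanSpace ℝ (Fin 2)

/-- The series `∑ x_n` converges (partial sums in the given order) but not absolutely. -/
def CondConv (x : ℕ → E2) : Prop :=
  (∃ s, Tendsto (fun N => ∑ n ∈ Finset.range N, x n) atTop (𝓝 s)) ∧ ¬ Summable (fun n => ‖x n‖)

/-- The sum range: sums of all convergent rearrangements. -/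
def SR (x : ℕ → E2) : Set E2 :=
  {p | ∃ σ : Equiv.Perm ℕ, Tendsto (fun N => ∑ n ∈ Finset.range N, x (σ n)) atTop (𝓝 p)}

/-- The achievement set: sums of convergent subseries, terms in the given order. -/
def Ach (x : ℕ → E2) : Set E2 :=
  {p | ∃ ε : ℕ → ℝ, (∀ n, ε n = 0 ∨ ε n = 1) ∧
    Tendsto (fun N => ∑ n ∈ Finset.range N, ε n • x n) atTop (𝓝 p)}

/-- The set of Levy vectors. -/
def Levy (x : ℕ → E2) : Set E2 :=
  {u | ‖u‖ = 1 ∧ ∀ ε : ℝ, 0 < ε →
    ¬ Summable (fun n => if (1 - ε) * ‖u‖ * ‖x n‖ ≤ inner ℝ u (x n) then ‖x n‖ else 0)}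

open Pool.Agent.H31.Levy

noncomputable def w (n : ℕ) : E2 := !₂[sg n * a (lev n), sg n * b (lev n)]

lemma pair {f g : ℕ → ℝ} {p q : ℝ} (hx : Tendsto f atTop (𝓝 p)) (hy : Tendsto g atTop (𝓝 q)) :
    Tendsto (fun N => (!₂[f N, g N] : E2)) atTop (𝓝 !₂[p, q]) := by
  have hc : Continuous (fun q : ℝ × ℝ => (!₂[q.1, q.2] : E2)) := by fun_prop
  exact (hc.tendsto (p, q)).comp (hx.prodMk_nhds hy)

lemma norm_w (n : ℕ) : b (lev n) ≤ ‖w n‖ ∧ ‖w n‖ ≤ b (lev n) + a (lev n) := by
  have h1 : ‖w n‖ ^ 2 = a (lev n) ^ 2 + b (lev n) ^ 2 := by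
    rw [EuclideanSpace.real_norm_sq_eq]
    rcases sg_cases n with h | h <;> simp [w, h]
  have h2 := a_pos (lev n); have h3 := b_pos (lev n); have h4 := norm_nonneg (w n)
  constructor <;> nlinarith

lemma inner_w (u : E2) (n : ℕ) : inner ℝ u (w n) = sg n * (u 0 * a (lev n) + u 1 * b (lev n)) := by
  simp [PiLp.inner_apply, w]; ring

lemma levy_mem (s : ℝ) (r : ℕ) (hs : s * s = 1) (hr : ∀ j, sg (8 * j + r) = s ∧ lev (8 * j + r) = kk j) :
    (!₂[0, s] : E2) ∈ Levy w := by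
  have hn : ‖(!₂[0, s] : E2)‖ = 1 := by
    rw [← sq_eq_sq₀ (norm_nonneg _) zero_le_one, EuclideanSpace.real_norm_sq_eq]
    simp only [Fin.sum_univ_two, Matrix.cons_val_zero, Matrix.cons_val_one]; nlinarith
  refine ⟨hn, fun ε hε => ?_⟩
  obtain ⟨J, hJ⟩ := eventually_atTop.1 ((b_lim.comp kk_top).eventually (gt_mem_nhds hε))
  refine not_summ _ (fun n => by split_ifs <;> simp) r J (fun j hj => ?_)
  have h1 := norm_w (8 * j + r)
  have h2 : b (kk j) < ε := hJ j hj
  have h3 := a_le (kk j); have h4 := a_le_b (kk j); have h5 := b_pos (kk j); have h6 := a_pos (kk j)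
  rw [(hr j).2] at h1
  rw [if_pos]
  · linarith [h1.1]
  · rw [hn, inner_w, (hr j).1, (hr j).2]
    simp only [Matrix.cons_val_zero, Matrix.cons_val_one, zero_mul, zero_add]
    rw [← mul_assoc, hs]
    nlinarith [h1.1, h1.2]

lemma levy_eq : Levy w = {!₂[0, 1], !₂[0, -1]} := by
  apply Set.Subset.antisymm
  · rintro u ⟨hu, hL⟩
    have h1 : u 0 ^ 2 + u 1 ^ 2 = 1 := by
      have := EuclideanSpace.real_norm_sq_eq u
      rw [hu] at this; simpa using this.symm
    by_contra hc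
    have h2 : |u 1| < 1 := by
      by_contra h3
      have h4 : 1 ≤ u 1 ^ 2 := by rw [← sq_abs]; nlinarith [not_lt.1 h3]
      have h5 : u 0 = 0 := by nlinarith [sq_nonneg (u 0)]
      have h6 : (u 1 - 1) * (u 1 + 1) = 0 := by rw [h5] at h1; nlinarith
      apply hc
      rcases mul_eq_zero.1 h6 with h | h
      · left; ext i; fin_cases i <;> simp [h5]; linarith
      · right; show u = _; ext i; fin_cases i <;> simp [h5]; linarith
    have h3 : |u 0| ≤ 1 := by rw [← sq_le_one_iff_abs_le_one]; nlinarith [sq_nonneg (u 1)]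
    apply hL ((1 - |u 1|) / 2) (by linarith)
    obtain ⟨J, hJ⟩ := eventually_atTop.1 ((b_lim.comp lev_top).eventually
      (gt_mem_nhds (show (0:ℝ) < (1 - |u 1|) / 2 by linarith)))
    refine summable_of_ne_finset_zero (s := Finset.range J) (fun n hn => ?_)
    rw [Finset.mem_range, not_lt] at hn
    have h4 : b (lev n) < (1 - |u 1|) / 2 := hJ n hn
    have h5 := (norm_w n).1
    have h6 := a_le (lev n); have h7 := b_pos (lev n); have h8 := a_pos (lev n)
    rw [if_neg]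
    rw [hu, inner_w, not_le]
    have h9 := abs_le.1 h3
    have h10 := le_abs_self (u 1); have h11 := neg_abs_le (u 1); have h12 := abs_nonneg (u 1)
    have h13 : (1 - (1 - |u 1|) / 2) * b (lev n) ≤ (1 - (1 - |u 1|) / 2) * 1 * ‖w n‖ := by
      rw [mul_one]; exact mul_le_mul_of_nonneg_left h5 (by linarith)
    have h14 : a (lev n) < (1 - |u 1|) / 2 * b (lev n) := by nlinarith
    rcases sg_cases n with h | h <;> rw [h] <;> nlinarith [h9.1, h9.2]
  · rintro u (rfl | rfl)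
    · exact levy_mem 1 0 (by norm_num) (fun j => by simp [sg, lev])
    · exact levy_mem (-1) 3 (by norm_num) (fun j => by simp [sg, lev, md j 3])

theorem result : ∃ x : ℕ → E2, CondConv x ∧ SR x = Set.univ ∧ Ach x = Set.univ ∧ (Levy x).ncard = 2 ∧
    ∃ σ : Equiv.Perm ℕ, Ach (fun n => x (σ n)) ≠ Set.univ := by
  refine ⟨w, ⟨⟨!₂[0, 0], ?_⟩, ?_⟩, ?_, ?_, ?_, ?_⟩
  · refine (pair (conv0 a a_pos a_le_b) (conv0 b b_pos (fun _ => le_rfl))).congr (fun N => ?_)
    ext i; fin_cases i <;> simp [w]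
  · refine not_summ _ (fun n => norm_nonneg _) 0 0 (fun j _ => ?_)
    have h1 := (norm_w (8 * j + 0)).1
    have h2 : lev (8 * j + 0) = kk j := by simp [lev]
    rw [h2] at h1
    exact (a_le_b _).trans h1
  · refine Set.eq_univ_of_forall (fun p => ?_)
    obtain ⟨σ, hx, hy⟩ := sr (p 0) (p 1)
    have e1 : (!₂[p 0, p 1] : E2) = p := by ext i; fin_cases i <;> simp
    refine ⟨σ, (e1 ▸ pair hx hy).congr (fun N => ?_)⟩
    ext i; fin_cases i <;> simp [w]
  · refine Set.eq_univ_of_forall (fun p => ?_)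
    obtain ⟨ε, h01, hx, hy⟩ := full (p 0) (p 1)
    have e1 : (!₂[p 0, p 1] : E2) = p := by ext i; fin_cases i <;> simp
    refine ⟨ε, h01, (e1 ▸ pair hx hy).congr (fun N => ?_)⟩
    ext i; fin_cases i <;> simp [w]
  · rw [levy_eq, Set.ncard_pair]
    intro h
    have := congrArg (fun v : E2 => v 1) h
    norm_num at this
  · obtain ⟨σ, hσ⟩ := sorted
    refine ⟨σ, fun h => ?_⟩
    obtain ⟨ε, h01, hl⟩ : (!₂[1/3, 0] : E2) ∈ Ach (fun n => w (σ n)) := h ▸ Set.mem_univ _
    have c0 : Continuous (fun v : E2 => v 0) := by fun_prop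
    have c1 : Continuous (fun v : E2 => v 1) := by fun_prop
    refine miss σ hσ ε h01 0 (((c0.tendsto _).comp hl).congr (fun N => ?_))
      (((c1.tendsto _).comp hl).congr (fun N => ?_))
    · simp [w]
    · simp [w]

end Pool.Agent.Results.MP_89b5f7_an.Counter
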